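import Mathlib
import Pool.Agent.H577R3.RM.Stmts

set_option autoImplicit false

namespace Pool.Agent.H150R3.RM

open Pool.Agent.H577R3.RM Finset

/-! ### binomial coefficients -/

theorem cb_bound (m : ℕ) : (2 * m + 1) * Nat.centralBinom m ^ 2 ≤ 16 ^ m := by
  induction m with
  | zero => simp
  | succ m ih =>
    have h := Nat.succ_mul_centralBinom_succ m
    have h1 : (m + 1) ^ 2 * ((2 * (m + 1) + 1) * Nat.centralBinom (m + 1) ^ 2) ≤
        (m + 1) ^ 2 * 16 ^ (m + 1) := by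
      calc (m + 1) ^ 2 * ((2 * (m + 1) + 1) * Nat.centralBinom (m + 1) ^ 2)
          = (2 * (m + 1) + 1) * ((m + 1) * Nat.centralBinom (m + 1)) ^ 2 := by ring
        _ = (2 * (m + 1) + 1) * (2 * (2 * m + 1) * Nat.centralBinom m) ^ 2 := by rw [h]
        _ = (4 * (2 * m + 3) * (2 * m + 1)) * ((2 * m + 1) * Nat.centralBinom m ^ 2) := by ring
        _ ≤ (4 * (2 * m + 3) * (2 * m + 1)) * 16 ^ m := Nat.mul_le_mul_left _ ih
        _ ≤ (16 * (m + 1) ^ 2) * 16 ^ m := Nat.mul_le_mul_right _ (by nlinarith)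
        _ = (m + 1) ^ 2 * 16 ^ (m + 1) := by ring
    exact Nat.le_of_mul_le_mul_left h1 (by positivity)

theorem mid_bound (N : ℕ) : (N + 1) * (N.choose (N / 2)) ^ 2 ≤ 4 ^ N := by
  rcases Nat.even_or_odd' N with ⟨m, rfl | rfl⟩
  · have h := cb_bound m
    rw [Nat.centralBinom_eq_two_mul_choose] at h
    rw [Nat.mul_div_cancel_left m (by norm_num), pow_mul]
    exact h
  · have h := cb_bound (m + 1)
    have h1 : Nat.centralBinom (m + 1) = 2 * (2 * m + 1).choose m := by
      rw [Nat.centralBinom_eq_two_mul_choose]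
      have h2 : 2 * (m + 1) = (2 * m + 1) + 1 := by ring
      rw [h2, Nat.choose_succ_succ' (2 * m + 1) m]
      have h3 : (2 * m + 1).choose (m + 1) = (2 * m + 1).choose m := by
        rw [← Nat.choose_symm_of_eq_add]; ring
      rw [h3]; ring
    have h4 : (2 * m + 1) / 2 = m := by omega
    rw [h4]
    rw [h1] at h
    have h5 : (4 : ℕ) ^ (2 * m + 1) * 4 = 16 ^ (m + 1) := by
      rw [show (16 : ℕ) = 4 ^ 2 by norm_num, ← pow_mul, ← pow_succ]
      congr 1
    nlinarith [h, h5, sq_nonneg ((2 * m + 1).choose m)]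

theorem mid_use (Q N : ℕ) (h : 4 * Q ^ 2 ≤ N) : 2 * Q * N.choose (N / 2) ≤ 2 ^ N := by
  have h1 := mid_bound N
  have h2 : (2 * Q * N.choose (N / 2)) ^ 2 ≤ (2 ^ N) ^ 2 := by
    calc (2 * Q * N.choose (N / 2)) ^ 2 = (4 * Q ^ 2) * (N.choose (N / 2)) ^ 2 := by ring
      _ ≤ (N + 1) * (N.choose (N / 2)) ^ 2 := Nat.mul_le_mul_right _ (by omega)
      _ ≤ 4 ^ N := h1
      _ = (2 ^ N) ^ 2 := by
        rw [← pow_mul, mul_comm, pow_mul]; norm_num
  exact (Nat.pow_le_pow_iff_left (by norm_num)).1 h2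

/-! ### flips -/

section flips
variable {n ℓ : ℕ} (i j : Fin n)

/-- flippable places -/
def Gd (w : Fin ℓ → Lt n) (x : Fin ℓ) : Prop :=
  x.1 % 5 = 2 ∧ (w x).1 = i ∧ ∀ y : Fin ℓ, (y.1 + 1 = x.1 ∨ x.1 + 1 = y.1) → w y = (j, true)

open Classical in
/-- flip the signs at the flippable places from `S` -/
noncomputable def fl (S : Finset (Fin ℓ)) (w : Fin ℓ → Lt n) : Fin ℓ → Lt n := fun x =>
  if x ∈ S ∧ Gd i j w x then ((w x).1, !(w x).2) else w x

open Classical in
/-- the set of the flippable places -/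
noncomputable def XX (w : Fin ℓ → Lt n) : Finset (Fin ℓ) := Finset.univ.filter (Gd i j w)

variable {i j}

theorem mem_XX {w : Fin ℓ → Lt n} {x : Fin ℓ} : x ∈ XX i j w ↔ Gd i j w x := by
  simp [XX]

theorem fl_p (S : Finset (Fin ℓ)) (w : Fin ℓ → Lt n) (x : Fin ℓ) (h : x ∈ S ∧ Gd i j w x) :
    fl i j S w x = ((w x).1, !(w x).2) := by
  unfold fl; rw [if_pos h]

theorem fl_n (S : Finset (Fin ℓ)) (w : Fin ℓ → Lt n) (x : Fin ℓ) (h : ¬ (x ∈ S ∧ Gd i j w x)) :
    fl i j S w x = w x := by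
  unfold fl; rw [if_neg h]

theorem fl_fst (S : Finset (Fin ℓ)) (w : Fin ℓ → Lt n) (x : Fin ℓ) :
    (fl i j S w x).1 = (w x).1 := by
  unfold fl; split_ifs <;> rfl

theorem fl_of_not (S : Finset (Fin ℓ)) (w : Fin ℓ → Lt n) (x : Fin ℓ) (h : ¬ Gd i j w x) :
    fl i j S w x = w x := by
  unfold fl; rw [if_neg]; exact fun h' => h h'.2

theorem fl_of_mod (S : Finset (Fin ℓ)) (w : Fin ℓ → Lt n) (x : Fin ℓ) (h : x.1 % 5 ≠ 2) :
    fl i j S w x = w x := fl_of_not S w x fun h' => h h'.1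

theorem Gd_fl (S : Finset (Fin ℓ)) (w : Fin ℓ → Lt n) (x : Fin ℓ) :
    Gd i j (fl i j S w) x ↔ Gd i j w x := by
  unfold Gd
  constructor
  · rintro ⟨h1, h2, h3⟩
    refine ⟨h1, by rwa [fl_fst] at h2, fun y hy => ?_⟩
    have h4 := h3 y hy
    rwa [fl_of_mod S w y (by omega)] at h4
  · rintro ⟨h1, h2, h3⟩
    refine ⟨h1, by rwa [fl_fst], fun y hy => ?_⟩
    rw [fl_of_mod S w y (by omega)]
    exact h3 y hy

theorem XX_fl (S : Finset (Fin ℓ)) (w : Fin ℓ → Lt n) : XX i j (fl i j S w) = XX i j w := by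
  ext x; rw [mem_XX, mem_XX, Gd_fl]

theorem fl_fl (S : Finset (Fin ℓ)) (w : Fin ℓ → Lt n) : fl i j S (fl i j S w) = w := by
  funext x
  by_cases h : x ∈ S ∧ Gd i j w x
  · have h' : x ∈ S ∧ Gd i j (fl i j S w) x := ⟨h.1, (Gd_fl S w x).2 h.2⟩
    rw [fl_p S _ x h', fl_p S w x h]
    simp
  · have h' : ¬ (x ∈ S ∧ Gd i j (fl i j S w) x) := fun h' => h ⟨h'.1, (Gd_fl S w x).1 h'.2⟩
    rw [fl_n S _ x h', fl_n S w x h]

theorem fl_red (hij : i ≠ j) (S : Finset (Fin ℓ)) (w : Fin ℓ → Lt n) (h : IsRed w) :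
    IsRed (fl i j S w) := by
  intro a b hab hfst
  rw [fl_fst, fl_fst] at hfst
  by_cases ha : Gd i j w a
  · have h1 := ha.2.2 b (Or.inr hab)
    rw [h1, ha.2.1] at hfst
    exact absurd hfst hij
  · by_cases hb : Gd i j w b
    · have h1 := hb.2.2 a (Or.inl hab)
      rw [h1, hb.2.1] at hfst
      exact absurd hfst.symm hij
    · rw [fl_of_not S w a ha, fl_of_not S w b hb]
      exact h a b hab hfst

theorem fl_red_iff (hij : i ≠ j) (S : Finset (Fin ℓ)) (w : Fin ℓ → Lt n) :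
    IsRed (fl i j S w) ↔ IsRed w :=
  ⟨fun h => by have := fl_red hij S _ h; rwa [fl_fl] at this, fl_red hij S w⟩

/-- value of a letter -/
def vl (κ : Fin n → ℤ) (a : Lt n) : ℤ := if a.2 then κ a.1 else - κ a.1

theorem sum_pos (κ : Fin n → ℤ) (w : Fin ℓ → Lt n) :
    ∑ l, κ l * pos w ℓ l = ∑ x, vl κ (w x) := by
  unfold pos
  simp only [Finset.sum_apply, Finset.mul_sum]
  rw [Finset.sum_comm]
  refine Finset.sum_congr rfl fun x _ => ?_
  simp only [x.2, if_true, vec, vl]
  by_cases h : (w x).2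
  · simp [h, Pi.single_apply]
  · simp [h, Pi.single_apply]

open Classical in
/-- the places from `X` with positive sign after the flip -/
noncomputable def PP (i j : Fin n) (w : Fin ℓ → Lt n) (S : Finset (Fin ℓ)) : Finset (Fin ℓ) :=
  (XX i j w).filter fun x => (fl i j S w x).2 = true

open Classical in
/-- the constant part -/
noncomputable def AA (i j : Fin n) (κ : Fin n → ℤ) (w : Fin ℓ → Lt n) : ℤ :=
  ∑ x ∈ Finset.univ.filter (fun x => ¬ Gd i j w x), vl κ (w x)

theorem sum_fl (κ : Fin n → ℤ) (w : Fin ℓ → Lt n) (S : Finset (Fin ℓ)) :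
    ∑ l, κ l * pos (fl i j S w) ℓ l =
      AA i j κ w + κ i * (2 * ((PP i j w S).card : ℤ) - ((XX i j w).card : ℤ)) := by
  classical
  rw [sum_pos, ← Finset.sum_filter_add_sum_filter_not Finset.univ (Gd i j w)]
  have h1 : ∑ x ∈ Finset.univ.filter (fun x => ¬ Gd i j w x), vl κ (fl i j S w x) =
      AA i j κ w := by
    unfold AA
    refine Finset.sum_congr (by congr) fun x hx => ?_
    rw [fl_of_not S w x (Finset.mem_filter.1 hx).2]
  have h2 : ∑ x ∈ Finset.univ.filter (Gd i j w), vl κ (fl i j S w x) =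
      ∑ x ∈ XX i j w, if (fl i j S w x).2 = true then κ i else - κ i := by
    refine Finset.sum_congr (by unfold XX; congr) fun x hx => ?_
    have h3 : Gd i j w x := (Finset.mem_filter.1 hx).2
    unfold vl
    rw [fl_fst, h3.2.1]
  rw [h1, h2, Finset.sum_ite, Finset.sum_const, Finset.sum_const]
  have h4 : ((XX i j w).filter fun x => (fl i j S w x).2 = true).card = (PP i j w S).card := by
    unfold PP; congr
  have h5 := Finset.card_filter_add_card_filter_not (s := XX i j w)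
    (fun x => (fl i j S w x).2 = true)
  rw [h4] at h5 ⊢
  have h6 : (((XX i j w).filter fun x => ¬ (fl i j S w x).2 = true).card : ℤ) =
      ((XX i j w).card : ℤ) - ((PP i j w S).card : ℤ) := by
    rw [← h5]; push_cast; ring
  simp only [nsmul_eq_mul]
  rw [h6]
  ring

theorem card_K (A κi : ℤ) (hκ : κi ≠ 0) (N W : ℕ) :
    ((Finset.range (N + 1)).filter fun k : ℕ =>
      |A + κi * (2 * (k : ℤ) - (N : ℤ))| < (W : ℤ) * |κi|).card ≤ W := by
  set K := (Finset.range (N + 1)).filter fun k : ℕ =>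
      |A + κi * (2 * (k : ℤ) - (N : ℤ))| < (W : ℤ) * |κi| with hK
  rcases K.eq_empty_or_nonempty with h | h
  · rw [h]; simp
  · have hmem := K.min'_mem h
    set k0 := K.min' h with hk0
    have hsub : K ⊆ Finset.Ico k0 (k0 + W) := by
      intro k hk
      have h1 : k0 ≤ k := K.min'_le k hk
      have h2 := (Finset.mem_filter.1 hk).2
      have h3 := (Finset.mem_filter.1 hmem).2
      rw [Finset.mem_Ico]
      refine ⟨h1, ?_⟩
      by_contra hcon
      push Not at hcon
      have h4 : |κi| * (2 * ((k : ℤ) - k0)) =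
          |(A + κi * (2 * (k : ℤ) - (N : ℤ))) - (A + κi * (2 * (k0 : ℤ) - (N : ℤ)))| := by
        have h5 : (A + κi * (2 * (k : ℤ) - (N : ℤ))) - (A + κi * (2 * (k0 : ℤ) - (N : ℤ))) =
            κi * (2 * ((k : ℤ) - k0)) := by ring
        rw [h5, abs_mul]
        congr 1
        rw [abs_of_nonneg]
        have : (k0 : ℤ) ≤ k := by exact_mod_cast h1
        linarith
      have h6 := abs_sub (A + κi * (2 * (k : ℤ) - (N : ℤ))) (A + κi * (2 * (k0 : ℤ) - (N : ℤ)))
      have h7 : (k0 : ℤ) + W ≤ k := by exact_mod_cast hcon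
      have h8 : 0 < |κi| := abs_pos.2 hκ
      nlinarith
    calc K.card ≤ (Finset.Ico k0 (k0 + W)).card := Finset.card_le_card hsub
      _ = W := by simp

open Classical in
theorem count_S (κ : Fin n → ℤ) (hκ : κ i ≠ 0) (w : Fin ℓ → Lt n) (W : ℕ) :
    ((Finset.univ : Finset (Finset (Fin ℓ))).filter fun S =>
      |∑ l, κ l * pos (fl i j S w) ℓ l| < (W : ℤ) * |κ i|).card ≤
      W * (XX i j w).card.choose ((XX i j w).card / 2) * 2 ^ (ℓ - (XX i j w).card) := by
  set N := (XX i j w).card with hN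
  set K := (Finset.range (N + 1)).filter fun k : ℕ =>
      |AA i j κ w + κ i * (2 * (k : ℤ) - (N : ℤ))| < (W : ℤ) * |κ i| with hK
  have hKW : K.card ≤ W := card_K _ _ hκ N W
  set D := (K.biUnion fun k => (XX i j w).powersetCard k) ×ˢ ((XX i j w)ᶜ).powerset with hD
  have hle : ((Finset.univ : Finset (Finset (Fin ℓ))).filter fun S =>
      |∑ l, κ l * pos (fl i j S w) ℓ l| < (W : ℤ) * |κ i|).card ≤ D.card := by
    refine Finset.card_le_card_of_injOn (fun S => (PP i j w S, S \ XX i j w)) ?_ ?_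
    · intro S hS
      have hS' := (Finset.mem_filter.1 (Finset.mem_coe.1 hS)).2
      rw [sum_fl] at hS'
      have hPX : PP i j w S ⊆ XX i j w := Finset.filter_subset _ _
      rw [Finset.mem_coe, hD, Finset.mem_product, Finset.mem_biUnion]
      refine ⟨⟨(PP i j w S).card, ?_, ?_⟩, ?_⟩
      · rw [hK, Finset.mem_filter, Finset.mem_range]
        exact ⟨Nat.lt_succ_of_le (Finset.card_le_card hPX), hS'⟩
      · rw [Finset.mem_powersetCard]
        exact ⟨hPX, rfl⟩
      · rw [Finset.mem_powerset]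
        intro x hx
        rw [Finset.mem_compl]
        exact (Finset.mem_sdiff.1 hx).2
    · intro S _ S' _ hSS
      have h1 : PP i j w S = PP i j w S' := (Prod.ext_iff.1 hSS).1
      have h2 : S \ XX i j w = S' \ XX i j w := (Prod.ext_iff.1 hSS).2
      ext x
      by_cases hx : x ∈ XX i j w
      · have hg : Gd i j w x := mem_XX.1 hx
        have h3 : x ∈ PP i j w S ↔ x ∈ PP i j w S' := by rw [h1]
        unfold PP at h3
        rw [Finset.mem_filter, Finset.mem_filter] at h3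
        simp only [hx, true_and] at h3
        unfold fl at h3
        by_cases ha : x ∈ S <;> by_cases hb : x ∈ S' <;> simp_all
      · have h3 : x ∈ S \ XX i j w ↔ x ∈ S' \ XX i j w := by rw [h2]
        rw [Finset.mem_sdiff, Finset.mem_sdiff] at h3
        simpa [hx] using h3
  refine hle.trans ?_
  rw [hD, Finset.card_product, Finset.card_powerset, Finset.card_compl, Fintype.card_fin]
  refine Nat.mul_le_mul_right _ ?_
  refine Finset.card_biUnion_le.trans ?_
  calc ∑ k ∈ K, ((XX i j w).powersetCard k).card ≤ ∑ _k ∈ K, N.choose (N / 2) := by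
        refine Finset.sum_le_sum fun k _ => ?_
        rw [Finset.card_powersetCard]
        exact Nat.choose_le_middle k N
    _ = K.card * N.choose (N / 2) := by rw [Finset.sum_const, smul_eq_mul]
    _ ≤ W * N.choose (N / 2) := Nat.mul_le_mul_right _ hKW

end flips

/-! ### assembly -/

open Classical in
/-- the reduced words as a finset -/
noncomputable def RR (n ℓ : ℕ) : Finset (Fin ℓ → Lt n) := Finset.univ.filter IsRed

theorem mem_RR {n ℓ : ℕ} {w : Fin ℓ → Lt n} : w ∈ RR n ℓ ↔ IsRed w := by simp [RR]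

theorem card_sub {n ℓ : ℕ} (P : (Fin ℓ → Lt n) → Prop) [DecidablePred P] :
    Nat.card {w : RW n ℓ // P w.1} = ((RR n ℓ).filter P).card := by
  rw [← Fintype.card_coe, ← Nat.card_eq_fintype_card]
  refine Nat.card_congr
    { toFun := fun w => ⟨w.1.1, Finset.mem_filter.2 ⟨mem_RR.2 w.1.2, w.2⟩⟩
      invFun := fun w => ⟨⟨w.1, mem_RR.1 (Finset.mem_filter.1 w.2).1⟩, (Finset.mem_filter.1 w.2).2⟩
      left_inv := fun w => rfl
      right_inv := fun w => rfl }

theorem card_RW (n ℓ : ℕ) : Nat.card (RW n ℓ) = (RR n ℓ).card := by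
  classical
  rw [← Fintype.card_coe, ← Nat.card_eq_fintype_card]
  refine Nat.card_congr
    { toFun := fun w => ⟨w.1, mem_RR.2 w.2⟩
      invFun := fun w => ⟨w.1, mem_RR.1 w.2⟩
      left_inv := fun w => rfl
      right_inv := fun w => rfl }

open Classical in
/-- words with many flippable places -/
theorem part1 {n ℓ : ℕ} {i j : Fin n} (hij : i ≠ j) (κ : Fin n → ℤ) (hκ : κ i ≠ 0) (W Q : ℕ) :
    2 * Q * ((RR n ℓ).filter fun w => 4 * Q ^ 2 ≤ (XX i j w).card ∧
      |∑ l, κ l * pos w ℓ l| < (W : ℤ) * |κ i|).card ≤ W * (RR n ℓ).card := by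
  set B : Finset (Fin ℓ → Lt n) := (RR n ℓ).filter fun w => 4 * Q ^ 2 ≤ (XX i j w).card ∧
      |∑ l, κ l * pos w ℓ l| < (W : ℤ) * |κ i| with hB
  have h1 : ∀ S : Finset (Fin ℓ), B.card =
      ((Finset.univ : Finset (Fin ℓ → Lt n)).filter fun w => fl i j S w ∈ B).card := by
    intro S
    refine Finset.card_bij' (fun w _ => fl i j S w) (fun w _ => fl i j S w) ?_ ?_ ?_ ?_
    · intro w hw
      rw [Finset.mem_filter]
      refine ⟨Finset.mem_univ _, ?_⟩
      rwa [fl_fl]
    · intro w hw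
      exact (Finset.mem_filter.1 hw).2
    · intro w _
      exact fl_fl S w
    · intro w _
      exact fl_fl S w
  have h2 : 2 ^ ℓ * B.card = ∑ w : Fin ℓ → Lt n,
      ((Finset.univ : Finset (Finset (Fin ℓ))).filter fun S => fl i j S w ∈ B).card := by
    have h3 : ∑ _S : Finset (Fin ℓ), B.card = 2 ^ ℓ * B.card := by
      rw [Finset.sum_const, smul_eq_mul, Finset.card_univ, Fintype.card_finset, Fintype.card_fin]
    rw [← h3, Finset.sum_congr rfl (fun S _ => h1 S)]
    simp only [Finset.card_filter]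
    exact Finset.sum_comm
  have h4 : ∀ w : Fin ℓ → Lt n, 2 * Q *
      ((Finset.univ : Finset (Finset (Fin ℓ))).filter fun S => fl i j S w ∈ B).card ≤
      if w ∈ RR n ℓ then W * 2 ^ ℓ else 0 := by
    intro w
    by_cases hw : w ∈ RR n ℓ
    · rw [if_pos hw]
      by_cases hN : 4 * Q ^ 2 ≤ (XX i j w).card
      · have h5 : ((Finset.univ : Finset (Finset (Fin ℓ))).filter fun S => fl i j S w ∈ B).card ≤
            ((Finset.univ : Finset (Finset (Fin ℓ))).filter fun S =>
              |∑ l, κ l * pos (fl i j S w) ℓ l| < (W : ℤ) * |κ i|).card := by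
          refine Finset.card_le_card fun S hS => ?_
          rw [Finset.mem_filter] at hS ⊢
          exact ⟨hS.1, (Finset.mem_filter.1 hS.2).2.2⟩
        have h6 := count_S (i := i) (j := j) κ hκ w W
        have h7 := mid_use Q (XX i j w).card hN
        have h8 : (XX i j w).card ≤ ℓ := by
          have := Finset.card_le_univ (XX i j w)
          rwa [Fintype.card_fin] at this
        calc 2 * Q * ((Finset.univ : Finset (Finset (Fin ℓ))).filter
                fun S => fl i j S w ∈ B).card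
            ≤ 2 * Q * (W * (XX i j w).card.choose ((XX i j w).card / 2) *
                2 ^ (ℓ - (XX i j w).card)) := Nat.mul_le_mul_left _ (h5.trans h6)
          _ = W * (2 * Q * (XX i j w).card.choose ((XX i j w).card / 2)) *
                2 ^ (ℓ - (XX i j w).card) := by ring
          _ ≤ W * 2 ^ (XX i j w).card * 2 ^ (ℓ - (XX i j w).card) :=
                Nat.mul_le_mul_right _ (Nat.mul_le_mul_left _ h7)
          _ = W * 2 ^ ℓ := by
                rw [mul_assoc, ← pow_add, Nat.add_sub_cancel' h8]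
      · have h5 : ((Finset.univ : Finset (Finset (Fin ℓ))).filter
            fun S => fl i j S w ∈ B) = ∅ := by
          rw [Finset.filter_eq_empty_iff]
          intro S _ hS
          have := (Finset.mem_filter.1 hS).2.1
          rw [XX_fl] at this
          exact hN this
        rw [h5]; simp
    · rw [if_neg hw]
      have h5 : ((Finset.univ : Finset (Finset (Fin ℓ))).filter
            fun S => fl i j S w ∈ B) = ∅ := by
        rw [Finset.filter_eq_empty_iff]
        intro S _ hS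
        have := mem_RR.1 (Finset.mem_filter.1 hS).1
        rw [fl_red_iff hij] at this
        exact hw (mem_RR.2 this)
      rw [h5]; simp
  have h5 : 2 ^ ℓ * (2 * Q * B.card) ≤ 2 ^ ℓ * (W * (RR n ℓ).card) := by
    calc 2 ^ ℓ * (2 * Q * B.card) = 2 * Q * (2 ^ ℓ * B.card) := by ring
      _ = ∑ w : Fin ℓ → Lt n, 2 * Q *
          ((Finset.univ : Finset (Finset (Fin ℓ))).filter fun S => fl i j S w ∈ B).card := by
            rw [h2, Finset.mul_sum]
      _ ≤ ∑ w : Fin ℓ → Lt n, if w ∈ RR n ℓ then W * 2 ^ ℓ else 0 :=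
            Finset.sum_le_sum fun w _ => h4 w
      _ = 2 ^ ℓ * (W * (RR n ℓ).card) := by
            rw [← Finset.sum_filter, Finset.sum_const, smul_eq_mul]
            have : (Finset.univ.filter fun w => w ∈ RR n ℓ) = RR n ℓ := by
              ext w; simp
            rw [this]; ring
  exact Nat.le_of_mul_le_mul_left h5 (by positivity)

/-- the good middle words -/
def GG {n : ℕ} (i j : Fin n) : Finset (Fin 3 → Lt n) :=
  {![(j, true), (i, true), (j, true)], ![(j, true), (i, false), (j, true)]}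

theorem GG_red {n : ℕ} {i j : Fin n} (hij : i ≠ j) : ∀ c ∈ GG i j, IsRed c := by
  intro c hc
  simp only [GG, Finset.mem_insert, Finset.mem_singleton] at hc
  rcases hc with rfl | rfl
  · intro a b hab hfst
    fin_cases a <;> fin_cases b <;> simp_all
  · intro a b hab hfst
    fin_cases a <;> fin_cases b <;> simp_all [hij.symm]

theorem Gd_of_At {n ℓ : ℕ} {i j : Fin n} {w : Fin ℓ → Lt n} {t : ℕ} {c : Fin 3 → Lt n}
    (hc : c ∈ GG i j) (h : At w (t * (3 + 2) + 1) c) :
    ∃ hx : t * 5 + 2 < ℓ, Gd i j w ⟨t * 5 + 2, hx⟩ := by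
  obtain ⟨h0, e0⟩ := h 0
  obtain ⟨h1, e1⟩ := h 1
  obtain ⟨h2, e2⟩ := h 2
  have g0 : c 0 = (j, true) := by
    simp only [GG, Finset.mem_insert, Finset.mem_singleton] at hc
    rcases hc with rfl | rfl <;> rfl
  have g1 : (c 1).1 = i := by
    simp only [GG, Finset.mem_insert, Finset.mem_singleton] at hc
    rcases hc with rfl | rfl <;> rfl
  have g2 : c 2 = (j, true) := by
    simp only [GG, Finset.mem_insert, Finset.mem_singleton] at hc
    rcases hc with rfl | rfl <;> rfl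
  have hx : t * 5 + 2 < ℓ := h1
  refine ⟨hx, by simp only; omega, ?_, fun y hy => ?_⟩
  · rw [← g1, ← e1]
    rfl
  · rcases hy with hy | hy
    · rw [← g0, ← e0]
      congr 1
      apply Fin.ext
      simp only [Fin.val_zero] at hy ⊢
      omega
    · rw [← g2, ← e2]
      congr 1
      apply Fin.ext
      have : ((2 : Fin 3) : ℕ) = 2 := rfl
      simp only [this] at hy ⊢
      omega

open Classical in
/-- words with few flippable places -/
theorem part2 (hWL : TaskWL) {n : ℕ} (hn : 2 ≤ n) {i j : Fin n} (hij : i ≠ j) (N0 g ℓ : ℕ)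
    (hg : 1 ≤ g) (hℓ : N0 * g * 5 ≤ ℓ) :
    ((RR n ℓ).filter fun w => (XX i j w).card < N0).card * (4 * Nat.card (RW n 3)) ^ g ≤
      N0 * ((4 * Nat.card (RW n 3) - 1) ^ g * (RR n ℓ).card) := by
  set p := 4 * Nat.card (RW n 3) with hp
  let H : ℕ → Finset ℕ := fun h => Finset.Ico (h * g) ((h + 1) * g)
  have hHc : ∀ h, (H h).card = g := by
    intro h
    simp only [H, Nat.card_Ico]
    rw [Nat.add_mul, one_mul, Nat.add_sub_cancel_left]
  let E : ℕ → Finset (Fin ℓ → Lt n) := fun h => (RR n ℓ).filter fun w =>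
    ∀ t ∈ H h, ∀ c ∈ GG i j, ¬ At w (t * (3 + 2) + 1) c
  have hE : ∀ h, h < N0 → (E h).card * p ^ g ≤ (p - 1) ^ g * (RR n ℓ).card := by
    intro h hh
    have h1 := hWL n 3 ℓ (Nat.card (RW n 3)) (GG i j) (H h) hn (by norm_num) (GG_red hij)
      (Nat.le_mul_of_pos_right _ (Finset.card_pos.2 ⟨_, Finset.mem_insert_self _ _⟩)) (by
        intro t ht
        have h2 := (Finset.mem_Ico.1 ht).2
        have h3 : (h + 1) * g ≤ N0 * g := Nat.mul_le_mul_right _ hh
        have h4 : (t + 1) ≤ N0 * g := by omega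
        calc (t + 1) * (3 + 2) ≤ N0 * g * 5 := Nat.mul_le_mul_right _ h4
          _ ≤ ℓ := hℓ)
    rw [card_sub (fun w => ∀ t ∈ H h, ∀ c ∈ GG i j, ¬ At w (t * (3 + 2) + 1) c), hHc] at h1
    rw [← card_RW n ℓ]
    exact h1
  have hsub : ((RR n ℓ).filter fun w => (XX i j w).card < N0) ⊆ (Finset.range N0).biUnion E := by
    intro w hw
    obtain ⟨hw1, hw2⟩ := Finset.mem_filter.1 hw
    by_contra hcon
    have h1 : ∀ h, h < N0 → ∃ t ∈ H h, ∃ hx : t * 5 + 2 < ℓ, Gd i j w ⟨t * 5 + 2, hx⟩ := by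
      intro h hh
      by_contra h2
      apply hcon
      rw [Finset.mem_biUnion]
      refine ⟨h, Finset.mem_range.2 hh, Finset.mem_filter.2 ⟨hw1, ?_⟩⟩
      intro t ht c hc hAt
      exact h2 ⟨t, ht, Gd_of_At hc hAt⟩
    choose! t ht hx hgd using h1
    have h3 : (Finset.range N0).card ≤ ((XX i j w).image fun x => x.1).card := by
      refine Finset.card_le_card_of_injOn (fun h => t h * 5 + 2) ?_ ?_
      · intro h hh
        have hh' : h < N0 := Finset.mem_range.1 (Finset.mem_coe.1 hh)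
        rw [Finset.mem_coe, Finset.mem_image]
        exact ⟨⟨t h * 5 + 2, hx h hh'⟩, mem_XX.2 (hgd h hh'), rfl⟩
      · intro h hh h' hh' heq
        have hh1 : h < N0 := Finset.mem_range.1 (Finset.mem_coe.1 hh)
        have hh2 : h' < N0 := Finset.mem_range.1 (Finset.mem_coe.1 hh')
        have e : t h = t h' := by simp only at heq; omega
        have a1 := Finset.mem_Ico.1 (ht h hh1)
        have a2 := Finset.mem_Ico.1 (ht h' hh2)
        rw [e] at a1
        have b1 : h < h' + 1 := Nat.lt_of_mul_lt_mul_right (lt_of_le_of_lt a1.1 a2.2)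
        have b2 : h' < h + 1 := Nat.lt_of_mul_lt_mul_right (lt_of_le_of_lt a2.1 a1.2)
        omega
    rw [Finset.card_range] at h3
    have h4 := h3.trans Finset.card_image_le
    omega
  calc ((RR n ℓ).filter fun w => (XX i j w).card < N0).card * p ^ g
      ≤ (∑ h ∈ Finset.range N0, (E h).card) * p ^ g :=
        Nat.mul_le_mul_right _ ((Finset.card_le_card hsub).trans Finset.card_biUnion_le)
    _ = ∑ h ∈ Finset.range N0, (E h).card * p ^ g := by rw [Finset.sum_mul]
    _ ≤ ∑ _h ∈ Finset.range N0, (p - 1) ^ g * (RR n ℓ).card :=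
        Finset.sum_le_sum fun h hh => hE h (Finset.mem_range.1 hh)
    _ = N0 * ((p - 1) ^ g * (RR n ℓ).card) := by
        rw [Finset.sum_const, Finset.card_range, smul_eq_mul]

theorem bern (q : ℕ) (hq : 1 ≤ q) : 2 * q ^ q ≤ (q + 1) ^ q := by
  have h1 : (1 : ℝ) + (q : ℝ) * (1 / q) ≤ (1 + 1 / (q : ℝ)) ^ q :=
    one_add_mul_le_pow (by have : (0 : ℝ) ≤ 1 / q := by positivity
                           linarith) q
  have hq0 : (0 : ℝ) < q := by exact_mod_cast hq
  have h2 : (1 : ℝ) + (q : ℝ) * (1 / q) = 2 := by field_simp; norm_num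
  rw [h2] at h1
  have h3 : (2 : ℝ) * (q : ℝ) ^ q ≤ ((q : ℝ) + 1) ^ q := by
    calc (2 : ℝ) * (q : ℝ) ^ q ≤ (1 + 1 / (q : ℝ)) ^ q * (q : ℝ) ^ q :=
          mul_le_mul_of_nonneg_right h1 (by positivity)
      _ = ((q : ℝ) + 1) ^ q := by
          rw [← mul_pow]; congr 1; field_simp
  exact_mod_cast h3

theorem pw (Q q : ℕ) (hQ : 1 ≤ Q) (hq : 1 ≤ q) :
    8 * Q ^ 3 * q ^ (6 * q * Q) ≤ (q + 1) ^ (6 * q * Q) := by
  have h1 := bern q hq
  have h2 : 64 * q ^ (6 * q) ≤ (q + 1) ^ (6 * q) := by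
    calc 64 * q ^ (6 * q) = (2 * q ^ q) ^ 6 := by
          rw [mul_pow, ← pow_mul, mul_comm q 6]; norm_num
      _ ≤ ((q + 1) ^ q) ^ 6 := Nat.pow_le_pow_left h1 6
      _ = (q + 1) ^ (6 * q) := by rw [← pow_mul, mul_comm q 6]
  have h3 : 2 * Q ≤ 4 ^ Q := by
    have h4 : Q < 2 ^ Q := Nat.lt_two_pow_self
    have h5 : 2 ≤ 2 ^ Q := by
      calc 2 = 2 ^ 1 := by norm_num
        _ ≤ 2 ^ Q := Nat.pow_le_pow_right (by norm_num) hQ
    have h6 : (4 : ℕ) ^ Q = 2 ^ Q * 2 ^ Q := by rw [← mul_pow]; norm_num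
    rw [h6]
    exact Nat.mul_le_mul h5 h4.le
  calc 8 * Q ^ 3 * q ^ (6 * q * Q) = (2 * Q) ^ 3 * (q ^ (6 * q)) ^ Q := by
        rw [pow_mul q (6 * q) Q]; ring
    _ ≤ (4 ^ Q) ^ 3 * (q ^ (6 * q)) ^ Q :=
        Nat.mul_le_mul_right _ (Nat.pow_le_pow_left h3 3)
    _ = (64 * q ^ (6 * q)) ^ Q := by
        rw [mul_pow]
        congr 1
        rw [← pow_mul, mul_comm Q 3, pow_mul]; norm_num
    _ ≤ ((q + 1) ^ (6 * q)) ^ Q := Nat.pow_le_pow_left h2 Q
    _ = (q + 1) ^ (6 * q * Q) := by rw [← pow_mul]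

theorem taskAC1 (hWL : TaskWL) : TaskAC1 := by
  classical
  intro n hn
  have hpos : 1 ≤ Nat.card (RW n 3) := by
    rw [card_RW]
    exact Finset.card_pos.2 ⟨fun _ => (⟨0, by omega⟩, true), mem_RR.2 fun _ _ _ _ => rfl⟩
  set q := 4 * Nat.card (RW n 3) - 1 with hq
  have hq1 : 1 ≤ q := by omega
  have hqp : 4 * Nat.card (RW n 3) = q + 1 := by omega
  refine ⟨120 * q, ?_⟩
  intro Q ℓ W i κ hQ hℓ hκ
  have : Nontrivial (Fin n) := Fin.nontrivial_iff_two_le.2 hn
  obtain ⟨j, hj⟩ := exists_ne i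
  have hij : i ≠ j := hj.symm
  rw [card_sub (fun w => |∑ l, κ l * pos w ℓ l| < (W : ℤ) * |κ i|), card_RW n ℓ]
  rcases Nat.eq_zero_or_pos W with rfl | hW
  · have : ((RR n ℓ).filter fun w => |∑ l, κ l * pos w ℓ l| < ((0 : ℕ) : ℤ) * |κ i|) = ∅ := by
      rw [Finset.filter_eq_empty_iff]
      intro w _ hw
      simp only [Nat.cast_zero, zero_mul] at hw
      exact absurd hw (not_lt.2 (abs_nonneg _))
    rw [this]; simp
  have h1 := part1 (n := n) (ℓ := ℓ) (j := j) hij κ hκ W Q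
  have h2 := part2 hWL hn hij (4 * Q ^ 2) (6 * q * Q) ℓ (by
      have : 0 < 6 * q * Q := by positivity
      exact this) (by
      calc 4 * Q ^ 2 * (6 * q * Q) * 5 = 120 * q * Q ^ 3 := by ring
        _ ≤ ℓ := hℓ)
  rw [hqp, Nat.add_sub_cancel] at h2
  have h3 := pw Q q hQ hq1
  set P1 := (RR n ℓ).filter fun w => 4 * Q ^ 2 ≤ (XX i j w).card ∧
      |∑ l, κ l * pos w ℓ l| < (W : ℤ) * |κ i| with hP1
  set P2 := (RR n ℓ).filter fun w => (XX i j w).card < 4 * Q ^ 2 with hP2
  set P := (RR n ℓ).filter fun w => |∑ l, κ l * pos w ℓ l| < (W : ℤ) * |κ i| with hP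
  have hsub : P ⊆ P1 ∪ P2 := by
    intro w hw
    obtain ⟨hw1, hw2⟩ := Finset.mem_filter.1 hw
    rw [Finset.mem_union]
    rcases Nat.lt_or_ge (XX i j w).card (4 * Q ^ 2) with h | h
    · right; exact Finset.mem_filter.2 ⟨hw1, h⟩
    · left; exact Finset.mem_filter.2 ⟨hw1, h, hw2⟩
  have hc : P.card ≤ P1.card + P2.card := (Finset.card_le_card hsub).trans (Finset.card_union_le _ _)
  have h4 : 2 * Q * P2.card ≤ (RR n ℓ).card := by
    have h5 : (q + 1) ^ (6 * q * Q) * (2 * Q * P2.card) ≤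
        (q + 1) ^ (6 * q * Q) * (RR n ℓ).card := by
      calc (q + 1) ^ (6 * q * Q) * (2 * Q * P2.card) =
            2 * Q * (P2.card * (q + 1) ^ (6 * q * Q)) := by ring
        _ ≤ 2 * Q * (4 * Q ^ 2 * (q ^ (6 * q * Q) * (RR n ℓ).card)) := Nat.mul_le_mul_left _ h2
        _ = (8 * Q ^ 3 * q ^ (6 * q * Q)) * (RR n ℓ).card := by ring
        _ ≤ (q + 1) ^ (6 * q * Q) * (RR n ℓ).card := Nat.mul_le_mul_right _ h3
    exact Nat.le_of_mul_le_mul_left h5 (by positivity)
  have h5 : 2 * (Q * P.card) ≤ 2 * (W * (RR n ℓ).card) := by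
    calc 2 * (Q * P.card) = 2 * Q * P.card := by ring
      _ ≤ 2 * Q * (P1.card + P2.card) := Nat.mul_le_mul_left _ hc
      _ = 2 * Q * P1.card + 2 * Q * P2.card := by ring
      _ ≤ W * (RR n ℓ).card + (RR n ℓ).card := Nat.add_le_add h1 h4
      _ ≤ W * (RR n ℓ).card + W * (RR n ℓ).card :=
          Nat.add_le_add_left (Nat.le_mul_of_pos_left _ hW) _
      _ = 2 * (W * (RR n ℓ).card) := by ring
  exact Nat.le_of_mul_le_mul_left h5 (by norm_num)

end Pool.Agent.H150R3.RM
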